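import Pool.Agent.V5helper39.WQ.Stm

/-!
# Project WQ, job WIN (adapted from `Pool/Agent/V5helper72/WP/WIN.lean`)
-/

set_option autoImplicit false

open Finset

namespace Pool.Agent.V5helper65.WQ

open Pool.Agent.V5helper43.WP (cw)
open Pool.Agent.V5helper39.WQ

/-- **WIN** -/
theorem t_WIN : S_WIN := by
  intro V K β hK1 hβ0 hK y L hy hL
  have hy1 : (1 : ℝ) ≤ y := by
    have : 1 ≤ y := by omega
    exact_mod_cast this
  have hyβ : 1 ≤ (y : ℝ) ^ β := Real.one_le_rpow hy1 hβ0
  have hKr : (1 : ℝ) ≤ K := by exact_mod_cast hK1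
  have hKy : 1 ≤ (K : ℝ) * (y : ℝ) ^ β := by nlinarith
  obtain ⟨g, hg⟩ : ∃ g : ℕ, g = ⌊(K : ℝ) * (y : ℝ) ^ β⌋₊ + 1 := ⟨_, rfl⟩
  have hg1 : (K : ℝ) * (y : ℝ) ^ β < g := by
    rw [hg]; push_cast; exact Nat.lt_floor_add_one _
  have hg2 : (g : ℝ) ≤ 2 * (K * (y : ℝ) ^ β) := by
    rw [hg]; push_cast
    have := Nat.floor_le (show 0 ≤ (K : ℝ) * (y : ℝ) ^ β by linarith)
    linarith
  have hg0 : 0 < g := by rw [hg]; omega
  -- the elements
  have hex : ∀ i : ℕ, ∃ u : ℕ, i < L / g → u ∈ V ∧ u + i * g ≤ y ∧ y < u + (i + 1) * g := by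
    intro i
    by_cases hi : i < L / g
    · have h1 : (i + 1) * g ≤ L := (Nat.mul_le_mul_right g hi).trans (Nat.div_mul_le_self L g)
      have h2 : i * g ≤ y := by nlinarith
      have h3 : K ≤ y - i * g := by
        have : i * g ≤ L := by nlinarith
        omega
      obtain ⟨u, hu, hu1, hu2⟩ := hK (y - i * g) h3
      refine ⟨u, fun _ => ⟨hu, by omega, ?_⟩⟩
      have h4 : ((y - i * g : ℕ) : ℝ) ≤ y := by exact_mod_cast Nat.sub_le _ _
      have h5 : ((y - i * g : ℕ) : ℝ) ^ β ≤ (y : ℝ) ^ β :=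
        Real.rpow_le_rpow (by positivity) h4 hβ0
      have h6 : ((y - i * g : ℕ) : ℝ) < u + g := by
        have : (K : ℝ) * ((y - i * g : ℕ) : ℝ) ^ β ≤ K * (y : ℝ) ^ β := by
          exact mul_le_mul_of_nonneg_left h5 (by positivity)
        linarith
      have h7 : y - i * g < u + g := by exact_mod_cast h6
      have : (i + 1) * g = i * g + g := by ring
      omega
    · exact ⟨0, fun h => absurd h hi⟩
  choose u hu using hex
  have hinj : Set.InjOn u (Finset.range (L / g) : Set ℕ) := by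
    have key : ∀ a b, a < b → b < L / g → u a ≠ u b := by
      intro a b hab hb h
      obtain ⟨-, h1, -⟩ := hu b hb
      obtain ⟨-, -, h2⟩ := hu a (hab.trans hb)
      rw [h] at h2
      have : (a + 1) * g ≤ b * g := Nat.mul_le_mul_right g hab
      omega
    intro a ha b hb h
    rw [Finset.mem_coe, Finset.mem_range] at ha hb
    rcases lt_trichotomy a b with h1 | h1 | h1
    · exact absurd h (key a b h1 hb)
    · exact h1
    · exact absurd h.symm (key b a h1 ha)
  have hcard : L / g ≤ cw V y L := by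
    have h1 : ((Finset.range (L / g)).image u).card = L / g := by
      rw [Finset.card_image_of_injOn hinj, Finset.card_range]
    have hfin : {v | v ∈ V ∧ v ≤ y ∧ y < v + L}.Finite :=
      (Set.finite_Iic y).subset fun v hv => hv.2.1
    calc L / g = ((Finset.range (L / g)).image u : Set ℕ).ncard := by
          rw [Set.ncard_coe_finset, h1]
      _ ≤ _ := by
          refine Set.ncard_le_ncard ?_ hfin
          intro v hv
          rw [Finset.mem_coe, Finset.mem_image] at hv
          obtain ⟨i, hi, rfl⟩ := hv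
          rw [Finset.mem_range] at hi
          obtain ⟨h2, h3, h4⟩ := hu i hi
          have h5 : (i + 1) * g ≤ L := (Nat.mul_le_mul_right g hi).trans (Nat.div_mul_le_self L g)
          exact ⟨h2, by omega, by omega⟩
  have h1 : (L : ℝ) / g < ((L / g : ℕ) : ℝ) + 1 := by
    rw [div_lt_iff₀ (by exact_mod_cast hg0)]
    have := Nat.lt_div_mul_add (a := L) hg0
    have h2 : (L : ℝ) < ((L / g * g + g : ℕ) : ℝ) := by exact_mod_cast this
    push_cast at h2
    linarith
  have h2 : (L : ℝ) / (((2 * K : ℕ) : ℝ) * (y : ℝ) ^ β) ≤ (L : ℝ) / g := by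
    refine div_le_div_of_nonneg_left (by positivity) (by exact_mod_cast hg0) ?_
    push_cast
    linarith
  have h3 : ((L / g : ℕ) : ℝ) ≤ cw V y L := by exact_mod_cast hcard
  linarith

end Pool.Agent.V5helper65.WQ

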